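import Pool.Agent.R656.OmegaStar

/-!
# Constant maps and autohomeomorphisms of `ω*` lie in different orbits of `C_k(ω*, ω*)`

ZFC proves: if two continuous maps `f, g : ω* → ω*` lie in the same orbit of `C_k(ω*, ω*)`, then
`f` has a finite range if and only if `g` has a finite range.  So no constant map lies in the orbit
of an autohomeomorphism.
-/

set_option autoImplicit false

namespace Pool.Agent.Results.MP_80df55_gt.FiniteRangeInvariant

open Set Topology

/-- The remainder `ω* = βω \ ω`: the nonprincipal ultrafilters on `ℕ`, as a subspace of the space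
`Ultrafilter ℕ` of all ultrafilters (the Stone-Čech compactification of `ℕ`). -/
abbrev OmegaStar : Type := {u : Ultrafilter ℕ // ∀ n : ℕ, u ≠ pure n}

/-- Two points of a space are in the same orbit if a homeomorphism of the space onto itself takes
the first one to the second one. -/
def SameOrbit {Y : Type} [TopologicalSpace Y] (a b : Y) : Prop := ∃ Φ : Y ≃ₜ Y, Φ a = b

/-- A point `p` is a weak `P`-point if it is not in the closure of any countable set that does not
contain it. -/
def IsWeakPPoint {X : Type} [TopologicalSpace X] (p : X) : Prop :=
  ∀ D : Set X, D.Countable → p ∉ D → p ∉ closure D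

/-- **Main theorem.**  The function space `C(OmegaStar, OmegaStar)` carries the compact-open
topology.

* The finiteness of the range of a map is an invariant of the orbits of `C_k(ω*, ω*)`.
* For every point `p` of `ω*` and every autohomeomorphism `f` of `ω*`, the constant map with value
  `p` and `f` are in different orbits of `C_k(ω*, ω*)`.
* So there are no weak `P`-point `p` and autohomeomorphism `f` such that the constant map with value
  `p` and `f` are in the same orbit. -/
theorem result :
    (∀ f g : C(OmegaStar, OmegaStar), SameOrbit f g → ((range f).Finite ↔ (range g).Finite)) ∧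
    (∀ (p : OmegaStar) (f : OmegaStar ≃ₜ OmegaStar),
      ¬ SameOrbit (ContinuousMap.const OmegaStar p) (f : C(OmegaStar, OmegaStar))) ∧
    ¬ ∃ (p : OmegaStar) (f : OmegaStar ≃ₜ OmegaStar), IsWeakPPoint p ∧
      SameOrbit (ContinuousMap.const OmegaStar p) (f : C(OmegaStar, OmegaStar)) := by
  have h1 : ∀ f g : C(OmegaStar, OmegaStar), SameOrbit f g →
      ((range f).Finite ↔ (range g).Finite) := fun f g h => Pool.Agent.R656.OS.finite_iff f g h
  have hinf : (univ : Set OmegaStar).Infinite := by
    -- disjoint infinite sets give infinitely many points
    have h2 : ∀ n : ℕ, {m : ℕ | m.unpair.1 = n}.Infinite := by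
      intro n
      refine Set.infinite_of_injective_forall_mem (f := fun k => Nat.pair n k) ?_ ?_
      · intro a b hab
        exact (Nat.pair_eq_pair.1 hab).2
      · intro k
        simp
    choose x hx using fun n => Pool.Agent.R656.OS.nonempty_st (h2 n)
    refine Set.infinite_of_injective_forall_mem (f := x) ?_ fun n => trivial
    intro a b hab
    have ha := hx a
    rw [hab] at ha
    obtain ⟨m, hm1, hm2⟩ := (x b).1.nonempty_of_mem (Filter.inter_mem ha (hx b))
    exact hm1.symm.trans hm2
  have h3 : ∀ (p : OmegaStar) (f : OmegaStar ≃ₜ OmegaStar),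
      ¬ SameOrbit (ContinuousMap.const OmegaStar p) (f : C(OmegaStar, OmegaStar)) := by
    intro p f h
    have h4 : (range (ContinuousMap.const OmegaStar p)).Finite :=
      (finite_singleton p).subset (by rintro _ ⟨y, rfl⟩; rfl)
    have h5 := (h1 _ _ h).1 h4
    have h6 : range (f : C(OmegaStar, OmegaStar)) = univ := f.surjective.range_eq
    rw [h6] at h5
    exact hinf h5
  exact ⟨h1, h3, fun ⟨p, f, _, h⟩ => h3 p f h⟩

end Pool.Agent.Results.MP_80df55_gt.FiniteRangeInvariant
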